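import Pool.Agent.TH764.SB.Graph

set_option autoImplicit false
set_option linter.deprecated false

/-!
# Under GCH the relation `R(κ)` fails for every singular cardinal `κ`
-/

namespace Pool.Agent.Results.MP_0cbb3c_lc.SquareBracketFails

open Cardinal Set Pool.Agent.H651R2 Pool.Agent.TH764.SB

universe u

/-- The canonical well-ordered type of order type `κ⁺` (the ordinals below `κ⁺`). -/
abbrev Below (κ : Cardinal.{u}) : Type u := (Order.succ κ).ord.ToType

/-- The relation `R(κ)`. For every colouring `f` of the pairs of `κ⁺` with colours `0, 1`, either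
there are `A, B ⊆ κ⁺` of size `κ⁺` and a map `φ` which is injective on `A ∪ B` and sends each edge
`{ξ, η}`, `ξ < η`, `ξ ∈ A`, `η ∈ B`, of `G(A,B)` to a pair of colour `1`, or there is a set `H` of
size `cf(κ)⁺` all of whose pairs have colour `0`. -/
def RelR (κ : Cardinal.{u}) : Prop :=
  ∀ f : Sym2 (Below κ) → Fin 2,
    (∃ A B : Set (Below κ), #A = Order.succ κ ∧ #B = Order.succ κ ∧
      ∃ φ : Below κ → Below κ, InjOn φ (A ∪ B) ∧
        ∀ ξ ∈ A, ∀ η ∈ B, ξ < η → f s(φ ξ, φ η) = 1) ∨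
    (∃ H : Set (Below κ), #H = Order.succ κ.ord.cof ∧
      ∀ x ∈ H, ∀ y ∈ H, x ≠ y → f s(x, y) = 0)

theorem exists_two {K : Type u} [LinearOrder K] [WellFoundedLT K] {c : Cardinal.{u}}
    (hc : ℵ₀ ≤ c) (H : Set K) (hH : #H = Order.succ c) :
    ∃ β ∈ H, ∃ α ∈ H, β < α ∧ c ≤ #(H ∩ Iio β : Set K) := by
  by_contra hcon
  push Not at hcon
  let H' : Set K := {β | β ∈ H ∧ ∃ α ∈ H, β < α}
  have h1 : ¬ #H' ≤ c := by
    intro h
    have h2 : #H ≤ c := by
      refine small_mono (t := H' ∪ (H \ H')) ?_ (small_union hc h (small_subsingleton hc ?_))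
      · intro x hx
        by_cases hx' : x ∈ H'
        · exact Or.inl hx'
        · exact Or.inr ⟨hx, hx'⟩
      · rintro x ⟨hx, hx'⟩ y ⟨hy, hy'⟩
        rcases lt_trichotomy x y with h | h | h
        · exact absurd ⟨hx, y, hy, h⟩ hx'
        · exact h
        · exact absurd ⟨hy, x, hx, h⟩ hy'
    rw [hH] at h2
    exact absurd h2 (not_le.2 (Order.lt_succ c))
  apply h1
  have h3 : Ordinal.type (α := H') (· < ·) ≤ c.ord := by
    by_contra h4
    rw [not_le] at h4
    let β : H' := Ordinal.enum (α := H') (· < ·) ⟨c.ord, h4⟩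
    have h5 : Ordinal.typein (α := H') (· < ·) β = c.ord := Ordinal.typein_enum _ _
    have h6 : #(Iio β) = c := by
      have h7 := congrArg Ordinal.card h5
      rw [card_ord] at h7
      rw [← h7]
      rfl
    obtain ⟨α, hα, hβα⟩ := β.2.2
    refine absurd (hcon β.1 β.2.1 α hα hβα) (not_lt.2 ?_)
    rw [← h6]
    refine Cardinal.mk_le_of_injective
      (f := fun x : Iio β => (⟨x.1.1, x.1.2.1, x.2⟩ : (H ∩ Iio β.1 : Set K))) ?_
    intro x y hxy
    have h9 := congrArg (fun z : (H ∩ Iio β.1 : Set K) => z.1) hxy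
    exact Subtype.ext (Subtype.ext h9)
  have h8 := Ordinal.card_le_card h3
  rwa [card_ord, Ordinal.card_type] at h8

/-- If `κ` is singular and the generalized continuum hypothesis holds at all infinite cardinals
up to `κ`, then `R(κ)` fails. -/
theorem result (κ : Cardinal.{u}) (hκ : κ.IsSingular)
    (hGCH : ∀ c : Cardinal.{u}, ℵ₀ ≤ c → c ≤ κ → (2 : Cardinal.{u}) ^ c = Order.succ c) :
    ¬ RelR κ := by
  classical
  have hlam : ℵ₀ ≤ κ := hκ.aleph0_le
  have hstrong : ∀ c < κ, (2 : Cardinal.{u}) ^ c ≤ κ := by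
    intro c hc
    by_cases h : ℵ₀ ≤ c
    · rw [hGCH c h hc.le]
      exact Order.succ_le_of_lt hc
    · have h2 : (2 : Cardinal.{u}) ^ c < ℵ₀ :=
        Cardinal.power_lt_aleph0 (by exact_mod_cast Cardinal.natCast_lt_aleph0 (n := 2))
          (not_le.1 h)
      exact h2.le.trans hlam
  have h2 : (2 : Cardinal.{u}) ^ κ = Order.succ κ := hGCH κ hlam le_rfl
  have hK : #(Below κ) = Order.succ κ := mk_ord_toType _
  have hI : ∀ a : Below κ, #(Iio a) ≤ κ := by
    intro a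
    have h := mk_Iio_lt a (by rw [hK]; simp [Below])
    rw [hK] at h
    exact Order.lt_succ_iff.1 h
  obtain ⟨N, hN1, hN2, hN3⟩ := exists_clique_free (K := Below κ) hκ hstrong h2 hK hI
  intro hR
  let f : Sym2 (Below κ) → Fin 2 := fun s => if ∃ x y, s = s(x, y) ∧ x ∈ N y then 0 else 1
  have hf0 : ∀ x y, x ∈ N y → f s(x, y) = 0 := fun x y h => if_pos ⟨x, y, rfl, h⟩
  rcases hR f with ⟨A, B, hA, hB, φ, hφ, hf⟩ | ⟨H, hH, hf⟩
  · -- the image of `A` is unbounded
    have hunb : ∀ γ, ∃ α ∈ φ '' A, γ < α := by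
      intro γ
      by_contra hcon
      push Not at hcon
      have h3 : #(φ '' A) ≤ κ := small_mono (t := Iic γ) hcon (small_Iic hlam (hI γ))
      rw [Cardinal.mk_image_eq_of_injOn φ A (hφ.mono subset_union_left), hA] at h3
      exact absurd h3 (not_le.2 (Order.lt_succ κ))
    obtain ⟨A₀, hA₀, hA₀c, b, hb⟩ := hN3 (φ '' A) hunb
    have hA1 : #{ξ | ξ ∈ A ∧ φ ξ ∈ A₀} ≤ κ := by
      refine le_trans ?_ hA₀c
      refine Cardinal.mk_le_of_injective
        (f := fun ξ : {ξ | ξ ∈ A ∧ φ ξ ∈ A₀} => (⟨φ ξ.1, ξ.2.2⟩ : A₀)) ?_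
      intro x y hxy
      exact Subtype.ext (hφ (Or.inl x.2.1) (Or.inl y.2.1) (Subtype.ext_iff.1 hxy))
    obtain ⟨γ, hγ⟩ := strict_bound hlam hK hI _ hA1
    have hB1 : ¬ #B ≤ κ := by
      rw [hB]
      exact not_le.2 (Order.lt_succ κ)
    have hB2 : #({η | η ∈ B ∧ φ η ≤ b} ∪ Iic γ : Set (Below κ)) ≤ κ := by
      refine small_union hlam ?_ (small_Iic hlam (hI γ))
      refine le_trans ?_ (small_Iic hlam (hI b))
      refine Cardinal.mk_le_of_injective
        (f := fun η : {η | η ∈ B ∧ φ η ≤ b} => (⟨φ η.1, η.2.2⟩ : Iic b)) ?_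
      intro x y hxy
      exact Subtype.ext (hφ (Or.inr x.2.1) (Or.inr y.2.1) (Subtype.ext_iff.1 hxy))
    obtain ⟨η, hηB, hη⟩ := exists_of_not_small (not_small_diff hlam hB1 hB2)
    have hη1 : b < φ η := by
      by_contra h
      exact hη (Or.inl ⟨hηB, not_lt.1 h⟩)
    have hη2 : γ < η := by
      by_contra h
      exact hη (Or.inr (not_lt.1 h))
    obtain ⟨x, hxN, hxA⟩ := hb (φ η) hη1
    obtain ⟨ξ, hξA, rfl⟩ := hA₀ hxA
    have hξη : ξ < η := (hγ ξ ⟨hξA, hxA⟩).trans hη2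
    have h3 := hf ξ hξA η hηB hξη
    rw [hf0 _ _ hxN] at h3
    exact absurd h3 (by decide)
  · -- a large homogeneous set of colour `0`
    have hcl : ∀ x ∈ H, ∀ y ∈ H, x < y → x ∈ N y := by
      intro x hx y hy hxy
      by_contra hnot
      have h3 : ¬ ∃ x' y', s(x, y) = s(x', y') ∧ x' ∈ N y' := by
        rintro ⟨x', y', hs, hmem⟩
        rcases Sym2.eq_iff.1 hs with ⟨rfl, rfl⟩ | ⟨rfl, rfl⟩
        · exact hnot hmem
        · exact absurd (hN1 _ hmem) (not_lt.2 hxy.le)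
      have h4 := hf x hx y hy (ne_of_lt hxy)
      have h5 : f s(x, y) = 1 := if_neg h3
      rw [h5] at h4
      exact absurd h4 (by decide)
    have hcof : ℵ₀ ≤ κ.ord.cof :=
      Ordinal.aleph0_le_cof.2 (Cardinal.isSuccLimit_ord hlam)
    obtain ⟨β, hβ, α, hα, hβα, hc⟩ := exists_two hcof H hH
    refine absurd (hN2 α β (hcl β hβ α hα hβα) (H ∩ Iio β) ?_ ?_) (not_lt.2 hc)
    · rintro x ⟨hx, hxβ⟩
      exact ⟨hcl x hx α hα (lt_trans hxβ hβα), hcl x hx β hβ hxβ⟩
    · intro x hx y hy hxy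
      exact hcl x hx.1 y hy.1 hxy

end Pool.Agent.Results.MP_0cbb3c_lc.SquareBracketFails
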